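import Pool.Agent.R21.HF.Dif

/-!
# An intrinsically harmonic 2-form of mixed rank on `CP² # -CP²`

`M` is the blow-up of `CP²` at a point (definitions in `Pool/Agent/R21/HF/Defs.lean`). The form is
`ω = α + 2 β`, where `α` is a Kähler form and `β` is a closed primitive form of type `(1, 1)`; the
Hodge star for the Kähler metric is `⋆ω = α - 2 β`.
-/

set_option autoImplicit false

open Complex Matrix Filter Topology
open scoped ComplexConjugate ContDiff LinearAlgebra.Projectivization

namespace Pool.Agent.Results.MP_dc226a_gt.MixedRank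

open Pool.Agent.R21.HF

/-- the forms `α + t β` -/
noncomputable def form (t : ℝ) : Tensor where
  c i x := imB (PP t i.2 x) (QQ t i.2 x) (CC t i.2 x)
  smooth i u v := by
    apply smooth_imB
    · exact (smooth_pA i.2).add (contDiff_const.mul (smooth_pB i.2))
    · exact (smooth_qA i.2).add (contDiff_const.mul (smooth_qB i.2))
    · constructor
      · have : (fun x => (CC t i.2 x).re) = fun x => (cA i.2 x).re + t * (cB i.2 x).re := by
          funext x; simp [CC]
        rw [this]
        exact (smooth_cA i.2).1.add (contDiff_const.mul (smooth_cB i.2).1)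
      · have : (fun x => (CC t i.2 x).im) = fun x => (cA i.2 x).im + t * (cB i.2 x).im := by
          funext x; simp [CC]
        rw [this]
        exact (smooth_cA i.2).2.add (contDiff_const.mul (smooth_cB i.2).2)
  compat i j x T hT u v := by
    rw [imB_apply, imB_apply, compat_Hh t i j x T hT]

/-- the Kähler metric -/
noncomputable def metric : Tensor where
  c i x := reB (pA i.2 x) (qA i.2 x) (cA i.2 x)
  smooth i u v := smooth_reB (smooth_pA i.2) (smooth_qA i.2) (smooth_cA i.2) u v
  compat i j x T hT u v := by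
    have h := compat_Hh 0 i j x T hT u v
    simp only [PP, QQ, CC, zero_mul, add_zero, Complex.ofReal_zero] at h
    rw [reB_apply, reB_apply, h]

lemma metric_isMetric : metric.IsMetric := by
  intro i x
  refine ⟨?_, fun u hu => reB_pos _ _ _ (pA_pos i.2 x) (det_pos i.2 x) u hu⟩
  intro u v
  show reB _ _ _ u v = reB _ _ _ v u
  rw [reB_real, reB_real]
  ring

lemma form_isForm (t : ℝ) : (form t).IsForm := fun _ _ u => imB_alt _ _ _ u

lemma form_isClosed (t : ℝ) : (form t).IsClosed := fun i => closed_form i.2 t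

lemma form_harmonic (t : ℝ) : metric.IsHarmonic (form t) :=
  ⟨form_isClosed t, form (-t), form_isForm _,
    fun i x => isStar _ _ _ _ _ _ t (det_pos i.2 x) (trace_zero i.2 x), form_isClosed _⟩

lemma PP_or_QQ (q : Bool) (x : V) : PP 2 q x ≠ 0 ∨ QQ 2 q x ≠ 0 := by
  by_cases hQ : QQ 2 q x = 0
  · left
    have hm := mm_pos x
    have hs := ss_nonneg x
    have h1 := N1_pos q x
    have h2 := N2_pos q x
    have hsq : N2 q x ^ 2 = 2 * N1 q x ^ 2 := by
      unfold QQ qA qB at hQ
      field_simp at hQ
      rw [mul_zero] at hQ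
      have h3 := (mul_eq_zero.mp hQ).resolve_left hm.ne'
      linarith
    apply ne_of_gt
    cases q
    · have e : PP 2 false x = 3 / mm x ^ 2 - ss x ^ 2 / N1 false x ^ 2 := by
        simp only [PP, pA, pB]
        rw [hsq]
        field_simp
        ring
      rw [e, sub_pos, div_lt_div_iff₀ (by positivity) (by positivity)]
      have e2 : N1 false x = 1 + ss x * mm x := rfl
      rw [e2]
      nlinarith [mul_nonneg hs hm.le, sq_nonneg (ss x * mm x)]
    · have e : PP 2 true x = 3 / mm x ^ 2 - 1 / N1 true x ^ 2 := by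
        simp only [PP, pA, pB]
        rw [hsq]
        field_simp
        ring
      rw [e, sub_pos, div_lt_div_iff₀ (by positivity) (by positivity)]
      have e2 : N1 true x = ss x + mm x := rfl
      rw [e2]
      nlinarith [mul_nonneg hs hm.le, sq_nonneg (ss x), sq_nonneg (mm x), pow_pos hm 2]
  · exact Or.inr hQ

lemma rank_two : ∃ x : V, rk ((form 2).c (false, false) x) = 2 := by
  set s : ℝ := Real.sqrt (1 / 2) with hs
  have hs0 : 0 ≤ s := Real.sqrt_nonneg _
  have hs2 : s ^ 2 = 1 / 2 := Real.sq_sqrt (by norm_num)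
  refine ⟨(0, ((Real.sqrt s : ℝ) : ℂ)), ?_⟩
  set x : V := (0, ((Real.sqrt s : ℝ) : ℂ)) with hx
  have hm : mm x = 1 := by simp [mm, hx]
  have hss : ss x = s := by
    simp only [ss, hx, Complex.ofReal_re, Complex.ofReal_im]
    rw [Real.sq_sqrt hs0]; ring
  have h1 : N1 false x = 1 + s := by
    have : N1 false x = 1 + ss x * mm x := rfl
    rw [this, hm, hss]; ring
  have h2 : N2 false x = 1 + 2 * s := by
    have : N2 false x = 1 + 2 * (ss x * mm x) := rfl
    rw [this, hm, hss]; ring
  have hQ : QQ 2 false x = 0 := by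
    simp only [QQ, qA, qB]
    rw [h1, h2, hm]
    have : (1 + 2 * s) ^ 2 = 2 * (1 + s) ^ 2 := by linear_combination 2 * hs2
    rw [this]
    have h3 : (1 + s) ≠ 0 := by positivity
    field_simp
    ring
  have hC : CC 2 false x = 0 := by
    have e1 : cA false x = 0 := by
      apply Complex.ext <;> simp [cA, hx]
    have e2 : cB false x = 0 := by
      apply Complex.ext <;> simp [cB, hx]
    simp [CC, e1, e2]
  have hP : PP 2 false x ≠ 0 := (PP_or_QQ false x).resolve_right (not_not.mpr hQ)
  show rk (imB (PP 2 false x) (QQ 2 false x) (CC 2 false x)) = 2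
  rw [hQ, hC]
  exact rk_imB_two _ hP

lemma rank_four : rk ((form 2).c (false, false) 0) = 4 := by
  show rk (imB (PP 2 false 0) (QQ 2 false 0) (CC 2 false 0)) = 4
  apply rk_imB_four
  have hm : mm (0 : V) = 1 := by simp [mm]
  have hs : ss (0 : V) = 0 := by simp [ss]
  have h1 : N1 false (0 : V) = 1 := by simp [N1, hs]
  have h2 : N2 false (0 : V) = 1 := by simp [N2, hs]
  have hC : CC 2 false (0 : V) = 0 := by
    have e1 : cA false (0 : V) = 0 := by
      apply Complex.ext <;> simp [cA]
    have e2 : cB false (0 : V) = 0 := by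
      apply Complex.ext <;> simp [cB]
    simp [CC, e1, e2]
  rw [hC]
  simp only [PP, QQ, pA, qA, pB, qB, hm, hs, h1, h2, Complex.zero_re, Complex.zero_im]
  norm_num

/-- The four charts are injective and cover the blow-up `M` of `CP²` at a point, and `M` carries an
intrinsically harmonic 2-form whose rank is at least `2` at every point, `2` at some point and `4` at
some other point. -/
theorem result :
    (∀ i, Function.Injective (chart i)) ∧ ⋃ i, Set.range (chart i) = blowUp ∧
    ∃ θ : Tensor, θ.IsForm ∧ θ.IsIntrinsicallyHarmonic ∧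
      (∀ i x, 2 ≤ rk (θ.c i x)) ∧ (∃ i x, rk (θ.c i x) = 2) ∧ ∃ i x, rk (θ.c i x) = 4 := by
  refine ⟨chart_injective, iUnion_chart, form 2, form_isForm 2,
    ⟨metric, metric_isMetric, form_harmonic 2⟩, ?_, ?_, ⟨_, _, rank_four⟩⟩
  · intro i x
    exact two_le_rk_imB _ _ _ (PP_or_QQ i.2 x)
  · obtain ⟨x, hx⟩ := rank_two
    exact ⟨_, x, hx⟩

end Pool.Agent.Results.MP_dc226a_gt.MixedRank
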